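import Mathlib
import Pool.Agent.Lib_helper70.ChainDefs
import Pool.Agent.Lib_helper46.CCF.Lim

set_option autoImplicit false

namespace Pool.Agent.Results.MP_10b4aa_co.AsymptoticCover

open Filter Pool.Agent.Lib_helper70.Chains

/-- For every fixed `r ≥ 1`, `N(n,r) = (1 + o(1)) M(n,r)` as `n → ∞`: the least number `N(n,r)` of
chains of the Boolean lattice `2^[n]` covering all `r`-term chains is asymptotically equal to the
largest admissible multinomial coefficient `M(n,r)`. Moreover, for all large `n` the minimum
`N(n,r)` is attained and `M(n,r)` is the multinomial coefficient of every balanced vector. -/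
theorem result (r : ℕ) (hr : 1 ≤ r) :
    Tendsto (fun n : ℕ => (coverNumber n r : ℝ) / (maxMultinomial n r : ℝ)) atTop (nhds 1) ∧
    ∀ᶠ n : ℕ in atTop,
      (∃ F : Finset (Finset (Finset (Fin n))), IsChainCover n r F ∧ F.card = coverNumber n r) ∧
      ∀ a : Fin (r + 1) → ℕ, ∑ i, a i = n → (∀ i j, a i ≤ a j + 1) →
        maxMultinomial n r = Nat.multinomial Finset.univ a := by
  refine ⟨Pool.Agent.Lib_helper46.CC.cover_tendsto r hr, ?_⟩
  filter_upwards [eventually_ge_atTop (r + 1)] with n hn
  exact ⟨Pool.Agent.Lib_helper46.CC.cover_attained n r,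
    fun a ha hb => Pool.Agent.Lib_helper46.CC.max_balanced r n hr hn a ha hb⟩

end Pool.Agent.Results.MP_10b4aa_co.AsymptoticCover
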